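import Pool.Agent.MNT.StmtsA

set_option autoImplicit false

/-!
# MNT, row ULT: an exact ultrametric is given by a laminar family
-/

namespace Pool.Agent.MNT.H1

variable {P : Type} [Fintype P] [DecidableEq P]

open Classical in
/-- the closed ball -/
noncomputable def ball (δ : P → P → ℝ) (p : P) (t : ℝ) : Finset P :=
  Finset.univ.filter fun r => r = p ∨ t ≤ δ p r

theorem mem_ball {δ : P → P → ℝ} {p r : P} {t : ℝ} : r ∈ ball δ p t ↔ r = p ∨ t ≤ δ p r := by
  unfold ball
  rw [Finset.mem_filter]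
  exact ⟨fun h => h.2, fun h => ⟨Finset.mem_univ _, h⟩⟩

/-- the ultrametric inequality -/
structure Um (δ : P → P → ℝ) : Prop where
  sym : ∀ p q, δ p q = δ q p
  tri : ∀ p q r, p ≠ q → q ≠ r → p ≠ r → min (δ p q) (δ q r) ≤ δ p r

theorem center_mem (δ : P → P → ℝ) (p : P) (t : ℝ) : p ∈ ball δ p t := mem_ball.2 (Or.inl rfl)

theorem Um.tri' {δ : P → P → ℝ} (h : Um δ) {p q r : P} {t : ℝ} (h1 : p = q ∨ t ≤ δ p q)
    (h2 : q = r ∨ t ≤ δ q r) : p = r ∨ t ≤ δ p r := by
  rcases h1 with rfl | h1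
  · exact h2
  rcases h2 with rfl | h2
  · exact Or.inr h1
  by_cases e : p = r
  · exact Or.inl e
  by_cases e1 : p = q
  · right
    rw [e1]
    exact h2
  by_cases e2 : q = r
  · right
    rw [← e2]
    exact h1
  exact Or.inr ((le_min h1 h2).trans (h.tri p q r e1 e2 e))

theorem Um.ball_le {δ : P → P → ℝ} (h : Um δ) {p q : P} {t : ℝ} (hq : q ∈ ball δ p t) :
    ball δ q t ⊆ ball δ p t := by
  intro r hr
  rw [mem_ball] at hq hr ⊢
  have h1 : p = q ∨ t ≤ δ p q := hq.imp Eq.symm id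
  have h2 : q = r ∨ t ≤ δ q r := hr.imp Eq.symm id
  exact (h.tri' h1 h2).imp Eq.symm id

theorem Um.ball_eq {δ : P → P → ℝ} (h : Um δ) {p q : P} {t : ℝ} (hq : q ∈ ball δ p t) :
    ball δ q t = ball δ p t := by
  apply Finset.Subset.antisymm (h.ball_le hq)
  apply h.ball_le
  rw [mem_ball] at hq ⊢
  rcases hq with rfl | hq
  · exact Or.inl rfl
  · exact Or.inr (by rw [h.sym]; exact hq)

theorem ball_mono {δ : P → P → ℝ} {p : P} {t u : ℝ} (h : t ≤ u) : ball δ p u ⊆ ball δ p t := by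
  intro r hr
  rw [mem_ball] at hr ⊢
  exact hr.imp id h.trans

open Classical in
/-- the set of the balls -/
noncomputable def bs (δ : P → P → ℝ) : Finset (Finset P) :=
  (Finset.univ : Finset P).offDiag.image fun x => ball δ x.1 (δ x.1 x.2)

theorem mem_bs {δ : P → P → ℝ} {c : Finset P} :
    c ∈ bs δ ↔ ∃ p q, p ≠ q ∧ c = ball δ p (δ p q) := by
  unfold bs
  rw [Finset.mem_image]
  constructor
  · rintro ⟨⟨p, q⟩, h1, h2⟩
    exact ⟨p, q, (Finset.mem_offDiag.1 h1).2.2, h2.symm⟩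
  · rintro ⟨p, q, h1, h2⟩
    exact ⟨(p, q), Finset.mem_offDiag.2 ⟨Finset.mem_univ _, Finset.mem_univ _, h1⟩, h2.symm⟩

open Classical in
/-- the least value on a set -/
noncomputable def mv (δ : P → P → ℝ) (c : Finset P) : ℝ :=
  if h : c.offDiag.Nonempty then c.offDiag.inf' h (fun x => δ x.1 x.2) else 0

theorem Um.mv_ball {δ : P → P → ℝ} (h : Um δ) {p q : P} (hpq : p ≠ q) :
    mv δ (ball δ p (δ p q)) = δ p q := by
  have hp : p ∈ ball δ p (δ p q) := center_mem δ p _
  have hq : q ∈ ball δ p (δ p q) := mem_ball.2 (Or.inr le_rfl)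
  have hm : (p, q) ∈ (ball δ p (δ p q)).offDiag := Finset.mem_offDiag.2 ⟨hp, hq, hpq⟩
  unfold mv
  rw [dif_pos ⟨_, hm⟩]
  apply le_antisymm
  · exact Finset.inf'_le (fun x : P × P => δ x.1 x.2) hm
  · apply Finset.le_inf'
    rintro ⟨r, s⟩ hrs
    obtain ⟨hr, hs, hne⟩ := Finset.mem_offDiag.1 hrs
    have hs' : s ∈ ball δ r (δ p q) := by
      rw [h.ball_eq hr]
      exact hs
    rcases mem_ball.1 hs' with e | e
    · exact absurd e.symm hne
    · exact e

/-- a ball is a ball around any of its elements, of radius `mv` -/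
theorem Um.repr {δ : P → P → ℝ} (h : Um δ) {c : Finset P} (hc : c ∈ bs δ) {a : P}
    (ha : a ∈ c) : c = ball δ a (mv δ c) := by
  obtain ⟨p, q, hpq, rfl⟩ := mem_bs.1 hc
  rw [h.mv_ball hpq, h.ball_eq ha]

theorem bs_nonempty {δ : P → P → ℝ} {c : Finset P} (hc : c ∈ bs δ) : 2 ≤ c.card := by
  obtain ⟨p, q, hpq, rfl⟩ := mem_bs.1 hc
  rw [← Finset.card_pair hpq]
  apply Finset.card_le_card
  intro r hr
  rw [Finset.mem_insert, Finset.mem_singleton] at hr
  rcases hr with rfl | rfl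
  · exact center_mem δ _ _
  · exact mem_ball.2 (Or.inr le_rfl)

theorem Um.lam {δ : P → P → ℝ} (h : Um δ) {c d : Finset P} (hc : c ∈ bs δ) (hd : d ∈ bs δ) :
    c ⊆ d ∨ d ⊆ c ∨ Disjoint c d := by
  by_cases hdis : Disjoint c d
  · exact Or.inr (Or.inr hdis)
  · rw [Finset.not_disjoint_iff] at hdis
    obtain ⟨a, ha, hb⟩ := hdis
    rw [h.repr hc ha, h.repr hd hb]
    rcases le_total (mv δ c) (mv δ d) with e | e
    · exact Or.inr (Or.inl (ball_mono e))
    · exact Or.inl (ball_mono e)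

theorem Um.mv_lt {δ : P → P → ℝ} (h : Um δ) {c d : Finset P} (hc : c ∈ bs δ) (hd : d ∈ bs δ)
    (hcd : c ⊂ d) : mv δ d < mv δ c := by
  by_contra hcon
  rw [not_lt] at hcon
  obtain ⟨a, ha⟩ : c.Nonempty := Finset.card_pos.1 (by have := bs_nonempty hc; omega)
  have h1 := ball_mono (δ := δ) (p := a) hcon
  rw [← h.repr hc ha, ← h.repr hd (hcd.1 ha)] at h1
  exact hcd.2 h1

theorem Um.top_mem {δ : P → P → ℝ} (hP : 2 ≤ Fintype.card P) : Finset.univ ∈ bs δ := by
  have hne : (Finset.univ : Finset P).offDiag.Nonempty := by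
    obtain ⟨p, q, hpq⟩ := Fintype.exists_pair_of_one_lt_card (α := P) (by omega)
    exact ⟨(p, q), Finset.mem_offDiag.2 ⟨Finset.mem_univ _, Finset.mem_univ _, hpq⟩⟩
  obtain ⟨⟨p, q⟩, h1, h2⟩ := Finset.exists_min_image _ (fun x : P × P => δ x.1 x.2) hne
  have hpq := (Finset.mem_offDiag.1 h1).2.2
  refine mem_bs.2 ⟨p, q, hpq, ?_⟩
  symm
  rw [Finset.eq_univ_iff_forall]
  intro r
  rw [mem_ball]
  by_cases e : r = p
  · exact Or.inl e
  · right
    exact h2 (p, r) (Finset.mem_offDiag.2 ⟨Finset.mem_univ _, Finset.mem_univ _, fun h => e h.symm⟩)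

/-- the parent -/
theorem Um.parent {δ : P → P → ℝ} (h : Um δ) (hP : 2 ≤ Fintype.card P) {c : Finset P}
    (hc : c ∈ bs δ) (hne : c ≠ Finset.univ) :
    ∃ d ∈ bs δ, c ⊂ d ∧ ∀ e ∈ bs δ, c ⊂ e → d ⊆ e := by
  classical
  obtain ⟨a, ha⟩ : c.Nonempty := Finset.card_pos.1 (by have := bs_nonempty hc; omega)
  have hex : ((bs δ).filter fun d => c ⊂ d).Nonempty :=
    ⟨Finset.univ, Finset.mem_filter.2 ⟨Um.top_mem hP,
      Finset.ssubset_univ_iff.2 hne⟩⟩
  obtain ⟨d, hd, hmin⟩ := Finset.exists_min_image _ (fun d : Finset P => d.card) hex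
  obtain ⟨hd1, hd2⟩ := Finset.mem_filter.1 hd
  refine ⟨d, hd1, hd2, fun e he hce => ?_⟩
  rcases h.lam hd1 he with k | k | k
  · exact k
  · have h1 := hmin e (Finset.mem_filter.2 ⟨he, hce⟩)
    rw [Finset.eq_of_subset_of_card_le k h1]
  · exact absurd k (Finset.not_disjoint_iff.2 ⟨a, hd2.1 ha, hce.1 ha⟩)

open Classical in
/-- the lengths -/
noncomputable def ln (δ : P → P → ℝ) (c : Finset P) : ℝ :=
  if h : ∃ d ∈ bs δ, c ⊂ d ∧ ∀ e ∈ bs δ, c ⊂ e → d ⊆ e then mv δ c - mv δ h.choose else mv δ c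

theorem ln_top (δ : P → P → ℝ) : ln δ (Finset.univ : Finset P) = mv δ Finset.univ := by
  unfold ln
  rw [dif_neg]
  rintro ⟨d, -, hd, -⟩
  exact hd.2 (Finset.subset_univ d)

theorem Um.ln_par {δ : P → P → ℝ} (h : Um δ) (hP : 2 ≤ Fintype.card P) {c : Finset P}
    (hc : c ∈ bs δ) (hne : c ≠ Finset.univ) :
    ∃ d ∈ bs δ, c ⊂ d ∧ (∀ e ∈ bs δ, c ⊂ e → d ⊆ e) ∧ ln δ c = mv δ c - mv δ d := by
  have hex := h.parent hP hc hne
  refine ⟨hex.choose, hex.choose_spec.1, hex.choose_spec.2.1, hex.choose_spec.2.2, ?_⟩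
  unfold ln
  rw [dif_pos hex]

open Classical in
/-- the telescoping sum -/
theorem Um.tele {δ : P → P → ℝ} (h : Um δ) (hP : 2 ≤ Fintype.card P) :
    ∀ (k : ℕ) (c : Finset P), c ∈ bs δ → Fintype.card P - c.card = k →
      ∑ d ∈ (bs δ).filter (fun d => c ⊆ d), ln δ d = mv δ c := by
  intro k
  induction k using Nat.strong_induction_on with
  | _ k ih =>
    intro c hc hk
    by_cases hne : c = Finset.univ
    · subst hne
      have h1 : (bs δ).filter (fun d => Finset.univ ⊆ d) = {Finset.univ} := by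
        ext d
        rw [Finset.mem_filter, Finset.mem_singleton]
        constructor
        · rintro ⟨-, h2⟩
          exact Finset.univ_subset_iff.1 h2
        · rintro rfl
          exact ⟨hc, Finset.Subset.refl _⟩
      rw [h1, Finset.sum_singleton, ln_top]
    · obtain ⟨d, hd, hcd, hpar, hln⟩ := h.ln_par hP hc hne
      have h1 : (bs δ).filter (fun e => c ⊆ e) = insert c ((bs δ).filter (fun e => d ⊆ e)) := by
        ext e
        rw [Finset.mem_insert, Finset.mem_filter, Finset.mem_filter]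
        constructor
        · rintro ⟨he, hce⟩
          by_cases e1 : e = c
          · exact Or.inl e1
          · exact Or.inr ⟨he, hpar e he (lt_of_le_of_ne hce (fun h => e1 h.symm))⟩
        · rintro (rfl | ⟨he, hde⟩)
          · exact ⟨hc, Finset.Subset.refl _⟩
          · exact ⟨he, hcd.1.trans hde⟩
      have h2 : c ∉ (bs δ).filter (fun e => d ⊆ e) := by
        intro h3
        exact hcd.2 (Finset.mem_filter.1 h3).2
      have h3 : Fintype.card P - d.card < k := by
        have h4 := Finset.card_lt_card hcd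
        have h5 : d.card ≤ Fintype.card P := Finset.card_le_univ d
        omega
      rw [h1, Finset.sum_insert h2, ih _ h3 d hd rfl, hln]
      ring

/-- ULT -/
theorem ult : UltStmt := by
  intro P _ _ δ hP hsym htri
  classical
  have h : Um δ := ⟨hsym, htri⟩
  refine ⟨{ V := bs δ, top_mem := Um.top_mem hP, two_le := fun c hc => bs_nonempty hc,
            lam := fun c hc d hd => h.lam hc hd, l := ln δ, pos := ?_ }, ?_⟩
  · intro c hc hne
    obtain ⟨d, hd, hcd, -, hln⟩ := h.ln_par hP hc hne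
    rw [hln, sub_pos]
    exact h.mv_lt hc hd hcd
  · intro p q hpq
    have hb : ball δ p (δ p q) ∈ bs δ := mem_bs.2 ⟨p, q, hpq, rfl⟩
    have h1 := h.tele hP _ _ hb rfl
    rw [h.mv_ball hpq] at h1
    have h2 : Lam.lev ⟨bs δ, Um.top_mem hP, fun c hc => bs_nonempty hc,
        fun c hc d hd => h.lam hc hd, ln δ, by
          intro c hc hne
          obtain ⟨d, hd, hcd, -, hln⟩ := h.ln_par hP hc hne
          rw [hln, sub_pos]
          exact h.mv_lt hc hd hcd⟩ {p, q} = δ p q := by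
      rw [← h1]
      unfold Lam.lev
      apply Finset.sum_congr _ (fun _ _ => rfl)
      ext d
      rw [Finset.mem_filter, Finset.mem_filter]
      constructor
      · rintro ⟨hd, hpd⟩
        refine ⟨hd, ?_⟩
        have hp : p ∈ d := hpd (Finset.mem_insert_self _ _)
        have hq : q ∈ d := hpd (Finset.mem_insert_of_mem (Finset.mem_singleton_self _))
        have h3 := h.repr hd hp
        rw [h3] at hq
        rcases mem_ball.1 hq with e | e
        · exact absurd e.symm hpq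
        · rw [h3]
          exact ball_mono e
      · rintro ⟨hd, hbd⟩
        refine ⟨hd, ?_⟩
        intro r hr
        rw [Finset.mem_insert, Finset.mem_singleton] at hr
        apply hbd
        rcases hr with rfl | rfl
        · exact center_mem δ _ _
        · exact mem_ball.2 (Or.inr le_rfl)
    rw [h2, sub_self, abs_zero]

end Pool.Agent.MNT.H1
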